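import Pool.Agent.Lib.MP_80aaf5_lc.Main

/-!
# Several pairs with tags: the bad sets are null

The combined pair of finitely many pairs of languages, each with a tag, and of finitely many
prescribed values.
-/

namespace ESY.RAll

open ESY Filter MeasureTheory

/-- a tag and a nondeterministic machine -/
abbrev Item : Type := List Bool × Machine × ℕ

/-- the strings `p q` with a tag `p` and `q` accepted by the machine of the tag, and finitely many
other strings -/
def setL (P : Finset (List Bool)) (l : List Item) (O : Oracle) : Set (List Bool) :=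
  {x | (∃ i ∈ l, ∃ q, x = i.1 ++ q ∧ q ∈ NPset O i.2.1 i.2.2) ∨ x ∈ P}

/-- a bound for the sizes of the certificates -/
def bd (l : List Item) (n : ℕ) : ℕ := (l.map fun i => poly i.2.2 n).sum

theorem poly_le_bd {l : List Item} {i : Item} (hi : i ∈ l) {m n : ℕ} (h : m ≤ n) :
    poly i.2.2 m ≤ bd l n :=
  (poly_mono _ h).trans (List.single_le_sum (by simp) _ (List.mem_map_of_mem hi))

theorem bd_mono (l : List Item) {m n : ℕ} (h : m ≤ n) : bd l m ≤ bd l n := by
  unfold bd
  induction l with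
  | nil => simp
  | cons i l ih =>
    simp only [List.map_cons, List.sum_cons]
    exact Nat.add_le_add (poly_mono _ h) ih

theorem sub_bd (l : List Item) {g : ℕ → ℕ} (hg : Sub g) : Sub fun n => bd l (g n) := by
  induction l with
  | nil => exact sub_const 0
  | cons i l ih =>
    have e : (fun n => bd (i :: l) (g n)) = fun n => poly i.2.2 (g n) + bd l (g n) := by
      funext n
      simp only [bd, List.map_cons, List.sum_cons]
    rw [e]
    exact sub_add (sub_poly hg _) ih

/-- membership depends on bounded oracle values only -/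
theorem setL_congr {O O' : Oracle} (P : Finset (List Bool)) (l : List Item) (x : List Bool) (L : ℕ)
    (hL : x.length + 2 * bd l x.length < L) (h : ∀ s : List Bool, s.length < L → O' s = O s) :
    x ∈ setL P l O' ↔ x ∈ setL P l O := by
  unfold setL
  simp only [Set.mem_ofPred_eq]
  refine or_congr ?_ Iff.rfl
  refine exists_congr fun i => and_congr_right fun hi => exists_congr fun q =>
    and_congr_right fun hx => ?_
  have hq : q.length ≤ x.length := by rw [hx, List.length_append]; omega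
  refine npset_congr i.2.1 i.2.2 q L ?_ h
  have := poly_le_bd hi hq
  omega

/-- certificates -/
theorem setL_cert {O : Oracle} (P : Finset (List Bool)) (l : List Item) (x : List Bool)
    (hx : x ∈ setL P l O) : ∃ F : Finset (List Bool), F.card ≤ bd l x.length ∧
      ∀ O' : Oracle, (∀ s ∈ F, O' s = O s) → x ∈ setL P l O' := by
  rcases hx with ⟨i, hi, q, hx, hq⟩ | hx
  · obtain ⟨F, h1, h2⟩ := npset_cert i.2.1 i.2.2 q hq
    have hq' : q.length ≤ x.length := by rw [hx, List.length_append]; omega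
    exact ⟨F, h1.trans (poly_le_bd hi hq'), fun O' h => Or.inl ⟨i, hi, q, hx, h2 O' h⟩⟩
  · exact ⟨∅, by simp, fun _ _ => Or.inr hx⟩

section finite

variable {C : Oracle → Oracle} (tC : Tame C) {N : Oracle → List Bool → Prop} {t : ℕ → ℕ}
  (hN : Loc N t) (lA lB : List Item) (P1 P0 : Finset (List Bool))

/-- the oracles at which the combined pair is disjoint and the reduction works -/
def badSet (C : Oracle → Oracle) (N : Oracle → List Bool → Prop)
    (lA lB : List Item) (P1 P0 : Finset (List Bool)) : Set Oracle :=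
  {R | (∀ q, ¬ (q ∈ setL P1 lA (C R) ∧ q ∈ setL P0 lB (C R))) ∧
    ∀ S : Oracle, (∀ q ∈ setL P1 lA (C R), S q = true) →
      (∀ q ∈ setL P0 lB (C R), S q = false) →
      ∀ x, N (join (C R) S) x ↔ x ∉ Test (C R)}

variable {n₀ : ℕ} {f : Oracle} {n b L : ℕ}

include tC in
theorem cert_fin (P : Finset (List Bool)) (l : List Item) (ω : Mid n₀ L → Bool)
    (q : List Bool) (hq : q ∈ setL P l (C (ext n₀ f L ω))) :
    ∃ F : Finset (Mid n₀ L), F.card ≤ bd l q.length ∧ ∀ ω' : Mid n₀ L → Bool,
      (∀ i ∈ F, ω' i = ω i) → q ∈ setL P l (C (ext n₀ f L ω')) := by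
  obtain ⟨F, h1, h2⟩ := setL_cert P l q hq
  exact ⟨coords tC n₀ L F, (coords_card tC F).trans h1,
    fun ω' h => h2 _ (coords_spec tC F ω ω' h)⟩

/-- the finite game -/
noncomputable def game (tC : Tame C) (hN : Loc N t) (lA lB : List Item)
    (P1 P0 : Finset (List Bool)) (f : Oracle) (h1 : n₀ ≤ 2 * n) (h2 : 3 * n + 1 < L) :
    Fin.Game (Mid n₀ L) (Vec n) (Vec n) (_root_.Fin (n + 1)) (Short (n + 2 * t n)) where
  b := blk tC h1 h2
  hb z z' y y' j j' h := blk_inj tC h1 h2 z z' y y' j j' h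
  A ω q := q.1 ∈ setL P1 lA (C (ext n₀ f L ω))
  B ω q := q.1 ∈ setL P0 lB (C (ext n₀ f L ω))
  M ω S z := N (join (C (ext n₀ f L ω)) (extS (n + 2 * t n) S)) z.1
  c := t n + bd lA (n + 2 * t n) + bd lB (n + 2 * t n) + 1
  locA ω q hq := by
    obtain ⟨F, h3, h4⟩ := cert_fin tC P1 lA ω q.1 hq
    refine ⟨F, ?_, h4⟩
    have := bd_mono lA q.2
    omega
  locB ω q hq := by
    obtain ⟨F, h3, h4⟩ := cert_fin tC P0 lB ω q.1 hq
    refine ⟨F, ?_, h4⟩
    have := bd_mono lB q.2
    omega
  locM ω S z hz := by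
    obtain ⟨F, G, h3, h4, h5⟩ := loc_fin tC hN (f := f) ω S z.1 hz
    rw [z.2] at h3 h4
    exact ⟨F, G, by omega, by omega, h5⟩

theorem game_good (h1 : n₀ ≤ 2 * n) (h2 : 3 * n + 1 < L)
    (hA : (n + 2 * t n) + 2 * bd lA (n + 2 * t n) < L)
    (hB : (n + 2 * t n) + 2 * bd lB (n + 2 * t n) < L) (ω : Mid n₀ L → Bool) (R : Oracle)
    (hR : R ∈ badSet C N lA lB P1 P0)
    (hf : ∀ x : List Bool, x.length < n₀ → R x = f x) (hω : ∀ i : Mid n₀ L, R i.1 = ω i) :
    (game tC hN lA lB P1 P0 f h1 h2).Good ω := by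
  classical
  obtain ⟨hR1, hR2⟩ := hR
  -- agreement below L
  have hag : ∀ x : List Bool, x.length < L → R x = ext n₀ f L ω x := by
    intro x hx
    unfold ext
    by_cases h : n₀ ≤ x.length ∧ x.length < L
    · rw [dif_pos h]
      exact hω ⟨x, h⟩
    · rw [dif_neg h]
      exact hf x (by by_contra h'; exact h ⟨not_lt.1 h', hx⟩)
  have hagC : ∀ x : List Bool, x.length < L → C R x = C (ext n₀ f L ω) x := fun x hx =>
    tC.dep _ _ x (hag _ ((tC.src_len x).trans_lt hx))
  have hsetA : ∀ q : List Bool, q.length ≤ n + 2 * t n →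
      (q ∈ setL P1 lA (C R) ↔ q ∈ setL P1 lA (C (ext n₀ f L ω))) := by
    intro q hq
    refine setL_congr P1 lA q L ?_ hagC
    have := bd_mono lA hq
    omega
  have hsetB : ∀ q : List Bool, q.length ≤ n + 2 * t n →
      (q ∈ setL P0 lB (C R) ↔ q ∈ setL P0 lB (C (ext n₀ f L ω))) := by
    intro q hq
    refine setL_congr P0 lB q L ?_ hagC
    have := bd_mono lB hq
    omega
  refine ⟨fun q hq => hR1 q.1 ⟨(hsetA q.1 q.2).2 hq.1, (hsetB q.1 q.2).2 hq.2⟩, ?_⟩
  intro S hSA hSB z
  let S' : Oracle := fun q => if h : q.length ≤ n + 2 * t n then S ⟨q, h⟩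
    else decide (q ∈ setL P1 lA (C R))
  have hS'A : ∀ q ∈ setL P1 lA (C R), S' q = true := by
    intro q hq
    by_cases h : q.length ≤ n + 2 * t n
    · simp only [S', h, dite_true]
      exact hSA ⟨q, h⟩ ((hsetA q h).1 hq)
    · simp only [S', h, dite_false]
      simpa using hq
  have hS'B : ∀ q ∈ setL P0 lB (C R), S' q = false := by
    intro q hq
    by_cases h : q.length ≤ n + 2 * t n
    · simp only [S', h, dite_true]
      exact hSB ⟨q, h⟩ ((hsetB q h).1 hq)
    · simp only [S', h, dite_false]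
      have : q ∉ setL P1 lA (C R) := fun h' => hR1 q ⟨h', hq⟩
      simpa using this
  have key := hR2 S' hS'A hS'B z.1
  -- the two joins agree on short strings
  have hjoin : ∀ s : List Bool, s.length ≤ n + 2 * t n →
      join (C R) S' s = join (C (ext n₀ f L ω)) (extS (n + 2 * t n) S) s := by
    intro s hl
    match s, hl with
    | [], _ => rfl
    | false :: s, hl =>
      refine hagC s ?_
      rw [List.length_cons] at hl
      omega
    | true :: s, hl =>
      rw [List.length_cons] at hl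
      have hl' : s.length ≤ n + 2 * t n := by omega
      change S' s = extS (n + 2 * t n) S s
      unfold extS
      simp only [S', hl', dite_true]
  -- so the reduction gives the same answer
  have hrun : N (join (C R) S') z.1 ↔
      N (join (C (ext n₀ f L ω)) (extS (n + 2 * t n) S)) z.1 := by
    constructor
    · intro h
      obtain ⟨F, -, hF, hF'⟩ := hN.cert _ _ h
      refine hF' _ fun s hs => (hjoin s ?_).symm
      have := hF s hs
      rwa [z.2] at this
    · intro h
      obtain ⟨F, -, hF, hF'⟩ := hN.cert _ _ h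
      refine hF' _ fun s hs => hjoin s ?_
      have := hF s hs
      rwa [z.2] at this
  -- the test language
  have htest : z.1 ∈ Test (C R) ↔ ∃ y, Fin.Wit (blk tC h1 h2 z) ω y := by
    constructor
    · rintro ⟨w, hw, h⟩
      rw [z.2] at hw h
      refine ⟨⟨w, hw⟩, fun j => ?_⟩
      have := h j (Nat.lt_succ_iff.1 j.2)
      rw [qstr_cons, tC.h_eq] at this
      rw [← hω]
      exact this
    · rintro ⟨w, hw⟩
      refine ⟨w.1, by rw [w.2, z.2], fun j hj => ?_⟩
      rw [z.2] at hj
      have := hw ⟨j, Nat.lt_succ_of_le hj⟩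
      rw [qstr_cons, tC.h_eq]
      rw [← hω] at this
      exact this
  have htest' : z.1 ∉ Test (C R) ↔ Fin.NoWit (blk tC h1 h2 z) ω := by
    rw [htest]
    exact not_exists
  exact (hrun.symm.trans key).trans htest'

include tC hN in
/-- the bad sets are null -/
theorem badSet_null (ht : Sub t) : coin (badSet C N lA lB P1 P0) = 0 := by
  by_contra hne
  obtain ⟨n₀, f, hden⟩ := density _ hne
  have hs : Sub (fun n =>
      8192 * (t n + bd lA (n + 2 * t n) + bd lB (n + 2 * t n) + 1) ^ 3 + 1) := by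
    have a1 : Sub (fun n => n + 2 * t n) := sub_add sub_id (sub_mul (sub_const 2) ht)
    have a2 : Sub (fun n => t n + bd lA (n + 2 * t n) + bd lB (n + 2 * t n) + 1) :=
      sub_add (sub_add (sub_add ht (sub_bd lA a1)) (sub_bd lB a1)) (sub_const 1)
    exact sub_add (sub_mul (sub_const 8192) (sub_pow a2 3)) (sub_const 1)
  obtain ⟨n, hn1, hn2⟩ := ((hs 1).and (eventually_ge_atTop n₀)).exists
  rw [pow_one] at hn1
  set L := n₀ + 3 * n + 2 + ((n + 2 * t n) + 2 * bd lA (n + 2 * t n)) +
    ((n + 2 * t n) + 2 * bd lB (n + 2 * t n)) with hL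
  have h1 : n₀ ≤ 2 * n := by omega
  have h2 : 3 * n + 1 < L := by omega
  have hA : (n + 2 * t n) + 2 * bd lA (n + 2 * t n) < L := by omega
  have hB : (n + 2 * t n) + 2 * bd lB (n + 2 * t n) < L := by omega
  have hd := hden L (by omega)
  set g := game tC hN lA lB P1 P0 f h1 h2 with hg
  have hgood : 20 * Fin.cnt (fun ω => ¬ g.Good ω) ≤ Nat.card (Mid n₀ L → Bool) := by
    refine le_trans (Nat.mul_le_mul_left _ (Fin.cnt_mono ?_)) hd
    intro ω hω hh
    obtain ⟨R, hR, hf, hRω⟩ := hh
    refine hω ?_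
    exact game_good tC hN lA lB P1 P0 h1 h2 hA hB ω R hR hf hRω
  have hc : g.c = t n + bd lA (n + 2 * t n) + bd lB (n + 2 * t n) + 1 := rfl
  have hc1 : 1 ≤ g.c := by rw [hc]; omega
  have hn1' : 8192 * g.c ^ 3 + 1 ≤ 2 ^ n := by rw [hc]; exact hn1
  have hcard : (Nat.card (Vec n) : ℝ) = ((2 ^ n : ℕ) : ℝ) := by rw [card_vec]
  have hbig : 16 * (g.c : ℝ) ^ 2 ≤ Nat.card (Vec n) := by
    rw [hcard]
    have : 16 * g.c ^ 2 ≤ 2 ^ n := by
      have h3 : g.c ^ 2 * 1 ≤ g.c ^ 2 * g.c := Nat.mul_le_mul_left _ hc1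
      have h4 : g.c ^ 3 = g.c ^ 2 * g.c := by ring
      rw [h4] at hn1'
      generalize g.c ^ 2 * g.c = u at *
      generalize g.c ^ 2 = v at *
      omega
    exact_mod_cast this
  have hJ : 2 ^ Nat.card (_root_.Fin (n + 1)) = 2 * Nat.card (Vec n) := by
    rw [card_vec, Nat.card_eq_fintype_card, Fintype.card_fin, pow_succ, mul_comm]
  have hfin := g.finite_main hc1 hbig hJ hgood
  rw [hcard] at hfin
  have : ((8192 * g.c ^ 3 + 1 : ℕ) : ℝ) ≤ ((2 ^ n : ℕ) : ℝ) := Nat.cast_le.2 hn1'
  push_cast at this hfin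
  linarith

end finite

end ESY.RAll
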