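import Pool.Agent.Lib.MP_80aaf5_lc.RAll.Fin

/-!
# One oracle for all pairs

Relative to a random oracle, one oracle contains separators of all disjoint `NP`-pairs but does
not help to decide `NP`.
-/

namespace ESY.RAll

open ESY Filter MeasureTheory

/-! ### tags -/

/-- the tag number `k` -/
def tag (k : ℕ) : List Bool := List.replicate k true ++ [false]

theorem tag_length (k : ℕ) : (tag k).length = k + 1 := by simp [tag]

theorem tag_inj : ∀ (k k' : ℕ) (q q' : List Bool), tag k ++ q = tag k' ++ q' → k = k' ∧ q = q' := by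
  intro k
  induction k with
  | zero =>
    intro k' q q' h
    cases k' with
    | zero => exact ⟨rfl, by simpa [tag] using h⟩
    | succ k' => simp [tag, List.replicate_succ] at h
  | succ k ih =>
    intro k' q q' h
    cases k' with
    | zero => simp [tag, List.replicate_succ] at h
    | succ k' =>
      have h1 : tag k ++ q = tag k' ++ q' := by
        simpa [tag, List.replicate_succ] using h
      obtain ⟨h2, h3⟩ := ih k' q q' h1
      exact ⟨by omega, h3⟩

/-! ### conditions -/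

/-- a condition: prescribed values and pairs with tags -/
structure Cond : Type where
  P1 : Finset (List Bool)
  P0 : Finset (List Bool)
  lA : List Item
  lB : List Item

/-- the combined pair is disjoint, and the tags are tags -/
structure OK (O : Oracle) (c : Cond) : Prop where
  disj : ∀ x, ¬ (x ∈ setL c.P1 c.lA O ∧ x ∈ setL c.P0 c.lB O)
  tA : ∀ i ∈ c.lA, ∃ k, i.1 = tag k
  tB : ∀ i ∈ c.lB, ∃ k, i.1 = tag k

/-- extension of conditions -/
structure Le (c c' : Cond) : Prop where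
  P1 : c.P1 ⊆ c'.P1
  P0 : c.P0 ⊆ c'.P0
  lA : c.lA ⊆ c'.lA
  lB : c.lB ⊆ c'.lB

theorem Le.refl (c : Cond) : Le c c := ⟨by simp, by simp, by simp, by simp⟩

theorem Le.trans {c c' c'' : Cond} (h : Le c c') (h' : Le c' c'') : Le c c'' :=
  ⟨h.P1.trans h'.P1, h.P0.trans h'.P0, List.Subset.trans h.lA h'.lA,
    List.Subset.trans h.lB h'.lB⟩

theorem setL_mono {O : Oracle} {P P' : Finset (List Bool)} {l l' : List Item} (hP : P ⊆ P')
    (hl : l ⊆ l') : setL P l O ⊆ setL P' l' O := by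
  rintro x (⟨i, hi, q, hx, hq⟩ | hx)
  · exact Or.inl ⟨i, hl hi, q, hx, hq⟩
  · exact Or.inr (hP hx)

/-- `S` is a separator of the combined pair -/
def Compat (O : Oracle) (c : Cond) (S : Oracle) : Prop :=
  (∀ x ∈ setL c.P1 c.lA O, S x = true) ∧ ∀ x ∈ setL c.P0 c.lB O, S x = false

/-- fixing the values that a failure depends on -/
theorem stepD {O : Oracle} {c : Cond} (hc : OK O c) (D : Oracle → Prop)
    (hloc : ∀ S, ¬ D S → ∃ F : Finset (List Bool), ∀ S' : Oracle, (∀ x ∈ F, S' x = S x) → ¬ D S')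
    (h : ∃ S, Compat O c S ∧ ¬ D S) :
    ∃ c', OK O c' ∧ Le c c' ∧ ∀ S, Compat O c' S → ¬ D S := by
  classical
  obtain ⟨S, ⟨hA, hB⟩, hD⟩ := h
  obtain ⟨F, hF⟩ := hloc S hD
  refine ⟨⟨c.P1 ∪ F.filter fun x => S x = true, c.P0 ∪ F.filter fun x => S x = false, c.lA, c.lB⟩,
    ⟨?_, hc.tA, hc.tB⟩, ⟨Finset.subset_union_left, Finset.subset_union_left, by simp, by simp⟩, ?_⟩
  · rintro x ⟨hx1, hx2⟩
    have e1 : S x = true := by
      rcases hx1 with h | h
      · exact hA x (Or.inl h)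
      · rcases Finset.mem_union.1 h with h | h
        · exact hA x (Or.inr h)
        · exact (Finset.mem_filter.1 h).2
    have e2 : S x = false := by
      rcases hx2 with h | h
      · exact hB x (Or.inl h)
      · rcases Finset.mem_union.1 h with h | h
        · exact hB x (Or.inr h)
        · exact (Finset.mem_filter.1 h).2
    rw [e1] at e2
    exact absurd e2 (by decide)
  · rintro S' ⟨hA', hB'⟩
    refine hF S' fun x hx => ?_
    cases hv : S x with
    | true =>
      exact hA' x (Or.inr (Finset.mem_union_right _ (Finset.mem_filter.2 ⟨hx, hv⟩)))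
    | false =>
      exact hB' x (Or.inr (Finset.mem_union_right _ (Finset.mem_filter.2 ⟨hx, hv⟩)))

/-- activating one more pair -/
theorem stepE {O : Oracle} {c : Cond} (hc : OK O c) (MA : Machine) (cA : ℕ) (MB : Machine)
    (cB : ℕ) (hdis : Disjoint (NPset O MA cA) (NPset O MB cB)) :
    ∃ c', OK O c' ∧ Le c c' ∧ ∃ k, (tag k, MA, cA) ∈ c'.lA ∧ (tag k, MB, cB) ∈ c'.lB := by
  classical
  set k := (c.P1 ∪ c.P0).sup List.length + ((c.lA ++ c.lB).map fun i => i.1.length).sum + 1
    with hk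
  have hP : ∀ x ∈ c.P1 ∪ c.P0, ∀ q, x ≠ tag k ++ q := by
    intro x hx q he
    have h1 := Finset.le_sup (f := List.length) hx
    have h2 : x.length = k + 1 + q.length := by rw [he, List.length_append, tag_length]
    omega
  have hl : ∀ i ∈ c.lA ++ c.lB, (∃ k', i.1 = tag k') → ∀ q q', i.1 ++ q' ≠ tag k ++ q := by
    rintro i hi ⟨k', hk'⟩ q q' he
    have h1 : i.1.length ≤ ((c.lA ++ c.lB).map fun i => i.1.length).sum :=
      List.single_le_sum (by simp) _ (List.mem_map_of_mem (f := fun i : Item => i.1.length) hi)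
    rw [hk'] at he h1
    rw [tag_length] at h1
    have h2 := (tag_inj _ _ _ _ he).1
    omega
  refine ⟨⟨c.P1, c.P0, (tag k, MA, cA) :: c.lA, (tag k, MB, cB) :: c.lB⟩, ⟨?_, ?_, ?_⟩,
    ⟨by simp, by simp, by simp, by simp⟩, k, by simp, by simp⟩
  · rintro x ⟨h1, h2⟩
    have hA : x ∈ setL c.P1 c.lA O ∨ ∃ q, x = tag k ++ q ∧ q ∈ NPset O MA cA := by
      rcases h1 with ⟨i, hi, q, hx, hq⟩ | h
      · rcases List.mem_cons.1 hi with rfl | hi
        · exact Or.inr ⟨q, hx, hq⟩
        · exact Or.inl (Or.inl ⟨i, hi, q, hx, hq⟩)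
      · exact Or.inl (Or.inr h)
    have hB : x ∈ setL c.P0 c.lB O ∨ ∃ q, x = tag k ++ q ∧ q ∈ NPset O MB cB := by
      rcases h2 with ⟨i, hi, q, hx, hq⟩ | h
      · rcases List.mem_cons.1 hi with rfl | hi
        · exact Or.inr ⟨q, hx, hq⟩
        · exact Or.inl (Or.inl ⟨i, hi, q, hx, hq⟩)
      · exact Or.inl (Or.inr h)
    rcases hA with hA | ⟨q, hx, hq⟩ <;> rcases hB with hB | ⟨q', hx', hq'⟩
    · exact hc.disj x ⟨hA, hB⟩
    · rcases hA with ⟨i, hi, q, hx, hq⟩ | h
      · exact hl i (List.mem_append_left _ hi) (hc.tA i hi) q' q (hx.symm.trans hx')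
      · exact hP x (Finset.mem_union_left _ h) q' hx'
    · rcases hB with ⟨i, hi, q', hx', hq'⟩ | h
      · exact hl i (List.mem_append_right _ hi) (hc.tB i hi) q q' (hx'.symm.trans hx)
      · exact hP x (Finset.mem_union_right _ h) q hx
    · have := (tag_inj _ _ _ _ (hx.symm.trans hx')).2
      subst this
      exact Set.disjoint_left.1 hdis hq hq'
  · intro i hi
    rcases List.mem_cons.1 hi with rfl | hi
    · exact ⟨k, rfl⟩
    · exact hc.tA i hi
  · intro i hi
    rcases List.mem_cons.1 hi with rfl | hi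
    · exact ⟨k, rfl⟩
    · exact hc.tB i hi

/-- The construction of one oracle for all pairs. -/
theorem exists_all {O : Oracle} {κ : Type} [Countable κ] (D : κ → Oracle → Prop)
    (hloc : ∀ i S, ¬ D i S → ∃ F : Finset (List Bool), ∀ S' : Oracle,
      (∀ x ∈ F, S' x = S x) → ¬ D i S')
    (h : ∀ i c, OK O c → ∃ S, Compat O c S ∧ ¬ D i S) :
    ∃ S : Oracle, (∀ MA cA MB cB, Disjoint (NPset O MA cA) (NPset O MB cB) →
      ∃ p : List Bool, Separator (NPset O MA cA) (NPset O MB cB) fun q => S (p ++ q)) ∧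
      ∀ i, ¬ D i S := by
  classical
  let ρ : Type := κ ⊕ (Machine × ℕ × Machine × ℕ)
  let Goal : ρ → Cond → Prop := fun r c =>
    match r with
    | .inl i => ∀ S, Compat O c S → ¬ D i S
    | .inr (MA, cA, MB, cB) => Disjoint (NPset O MA cA) (NPset O MB cB) →
      ∃ k, (tag k, MA, cA) ∈ c.lA ∧ (tag k, MB, cB) ∈ c.lB
  have step : ∀ (r : ρ) (c : Cond), ∃ c', OK O c → (OK O c' ∧ Le c c' ∧ Goal r c') := by
    rintro (i | ⟨MA, cA, MB, cB⟩) c
    · by_cases hc : OK O c
      · obtain ⟨c', h1, h2, h3⟩ := stepD hc (D i) (hloc i) (h i c hc)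
        exact ⟨c', fun _ => ⟨h1, h2, h3⟩⟩
      · exact ⟨c, fun hc' => absurd hc' hc⟩
    · by_cases hc : OK O c
      · by_cases hd : Disjoint (NPset O MA cA) (NPset O MB cB)
        · obtain ⟨c', h1, h2, h3⟩ := stepE hc MA cA MB cB hd
          exact ⟨c', fun _ => ⟨h1, h2, fun _ => h3⟩⟩
        · exact ⟨c, fun _ => ⟨hc, Le.refl c, fun hd' => absurd hd' hd⟩⟩
      · exact ⟨c, fun hc' => absurd hc' hc⟩
  choose nxt hnxt using step
  have hne : Nonempty ρ := ⟨.inr (⟨0, 0, fun _ => .halt true⟩, 0, ⟨0, 0, fun _ => .halt true⟩, 0)⟩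
  obtain ⟨e, he⟩ := exists_surjective_nat ρ
  let seq : ℕ → Cond := fun n => Nat.rec ⟨∅, ∅, [], []⟩ (fun n c => nxt (e n) c) n
  have hseq : ∀ n, seq (n + 1) = nxt (e n) (seq n) := fun n => rfl
  have hok : ∀ n, OK O (seq n) := by
    intro n
    induction n with
    | zero =>
      refine ⟨?_, fun i hi => absurd hi (by simp [seq]), fun i hi => absurd hi (by simp [seq])⟩
      rintro x ⟨⟨i, hi, -⟩ | hx, -⟩
      · simp [seq] at hi
      · simp [seq] at hx
    | succ n ih =>
      rw [hseq]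
      exact (hnxt (e n) (seq n) ih).1
  have hstep : ∀ n, Le (seq n) (seq (n + 1)) := fun n => (hnxt (e n) (seq n) (hok n)).2.1
  have hle : ∀ m n, m ≤ n → Le (seq m) (seq n) := by
    intro m n hmn
    induction n, hmn using Nat.le_induction with
    | base => exact Le.refl _
    | succ n _ ih => exact ih.trans (hstep n)
  let S : Oracle := fun x => decide (∃ n, x ∈ setL (seq n).P1 (seq n).lA O)
  have hS : ∀ n, Compat O (seq n) S := by
    intro n
    refine ⟨fun x hx => decide_eq_true ⟨n, hx⟩, fun x hx => decide_eq_false ?_⟩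
    rintro ⟨m, hm⟩
    have h1 := hle m (max m n) (le_max_left _ _)
    have h2 := hle n (max m n) (le_max_right _ _)
    exact (hok (max m n)).disj x ⟨setL_mono h1.P1 h1.lA hm, setL_mono h2.P0 h2.lB hx⟩
  refine ⟨S, fun MA cA MB cB hd => ?_, fun i => ?_⟩
  · obtain ⟨n, hn⟩ := he (.inr (MA, cA, MB, cB))
    have h1 := (hnxt (e n) (seq n) (hok n)).2.2
    rw [← hseq, hn] at h1
    obtain ⟨k, h2, h3⟩ := h1 hd
    refine ⟨tag k, fun q hq => ?_, fun q hq => ?_⟩
    · exact (hS (n + 1)).1 _ (Or.inl ⟨_, h2, q, rfl, hq⟩)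
    · exact (hS (n + 1)).2 _ (Or.inl ⟨_, h3, q, rfl, hq⟩)
  · obtain ⟨n, hn⟩ := he (.inl i)
    have h1 := (hnxt (e n) (seq n) (hok n)).2.2
    rw [← hseq, hn] at h1
    exact h1 S (hS (n + 1))

/-- The general theorem, for countably many reductions. -/
theorem main_general {C : Oracle → Oracle} (tC : Tame C) {κ : Type} [Countable κ]
    (N : κ → Oracle → List Bool → Prop) (t : κ → ℕ → ℕ) (hN : ∀ i, Loc (N i) (t i))
    (ht : ∀ i, Sub (t i)) :
    ∀ᵐ R ∂coin, ∃ S : Oracle, (∀ A B : Set (List Bool), InNP (C R) A → InNP (C R) B →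
      Disjoint A B → ∃ p : List Bool, Separator A B fun q => S (p ++ q)) ∧
      ∀ i, ∃ x, ¬ (N i (join (C R) S) x ↔ x ∉ Test (C R)) := by
  classical
  let ι : Type := κ × List Item × List Item × Finset (List Bool) × Finset (List Bool)
  let E : ι → Set Oracle := fun i => badSet C (N i.1) i.2.1 i.2.2.1 i.2.2.2.1 i.2.2.2.2
  have hE : ∀ᵐ R ∂coin, ∀ i : ι, R ∉ E i := by
    rw [ae_all_iff]
    intro i
    have := badSet_null tC (hN i.1) i.2.1 i.2.2.1 i.2.2.2.1 i.2.2.2.2 (ht _)
    exact measure_eq_zero_iff_ae_notMem.1 this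
  filter_upwards [hE] with R hR
  let D : κ → Oracle → Prop := fun i S => ∀ x, N i (join (C R) S) x ↔ x ∉ Test (C R)
  obtain ⟨S, h1, h2⟩ := exists_all (O := C R) D (by
    intro i S hnot
    have hnot' : ∃ x, ¬ (N i (join (C R) S) x ↔ x ∉ Test (C R)) := by
      by_contra hcon
      exact hnot fun x => by_contra fun hx => hcon ⟨x, hx⟩
    obtain ⟨x, hx⟩ := hnot'
    obtain ⟨G, hG⟩ := (hN i).fin (join (C R) S) x
    refine ⟨G.image List.tail, fun S' hS' hDS' => hx ?_⟩
    rw [← hDS' x]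
    refine (hG _ fun s hs => ?_).symm
    match s, hs with
    | [], _ => rfl
    | false :: s, _ => rfl
    | true :: s, hs => exact hS' s (Finset.mem_image_of_mem List.tail hs)) (by
    intro i c hc
    by_contra hcon
    refine hR (i, c.lA, c.lB, c.P1, c.P0) ⟨hc.disj, fun S hA hB => ?_⟩
    by_contra hx
    exact hcon ⟨S, ⟨hA, hB⟩, hx⟩)
  refine ⟨S, ?_, fun i => ?_⟩
  · rintro A B ⟨MA, cA, hMA⟩ ⟨MB, cB, hMB⟩ hdis
    have hA : A = NPset (C R) MA cA := Set.ext hMA
    have hB : B = NPset (C R) MB cB := Set.ext hMB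
    rw [hA, hB] at hdis ⊢
    exact h1 MA cA MB cB hdis
  · by_contra hcon
    exact h2 i fun x => by_contra fun hx => hcon ⟨x, hx⟩

/-- **Main theorem.** -/
theorem main_one {C : Oracle → Oracle} (tC : Tame C) (T : ℕ → ℕ → ℕ) (hT : Subexponential T) :
    ∀ᵐ R ∂coin, ∃ S : Oracle, (∀ A B : Set (List Bool), InNP (C R) A → InNP (C R) B →
      Disjoint A B → ∃ p : List Bool, Separator A B fun q => S (p ++ q)) ∧
      ¬ InTime T (join (C R) S) (Test (C R)) ∧ ¬ InNTime T (join (C R) S) (Test (C R))ᶜ := by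
  let κ : Type := Bool × Machine × ℕ
  let N : κ → Oracle → List Bool → Prop := fun i O x =>
    match i with
    | (false, M, c) => ¬ AcceptsIn O M x [] (T c x.length)
    | (true, M, c) =>
      ∃ w : List Bool, w.length ≤ T c x.length ∧ AcceptsIn O M x w (T c x.length)
  have hN : ∀ i : κ, Loc (N i) (T i.2.2) := by
    rintro ⟨_ | _, M, c⟩
    · exact loc_det M (T c)
    · exact loc_nondet M (T c)
  filter_upwards [main_general tC N (fun i => T i.2.2) hN fun i => hT i.2.2] with R hR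
  obtain ⟨S, hS, h⟩ := hR
  refine ⟨S, hS, ?_, ?_⟩
  · rintro ⟨M, c, hM⟩
    obtain ⟨x, hx⟩ := h (false, M, c)
    exact hx (not_congr (hM x)).symm
  · rintro ⟨M, c, hM⟩
    obtain ⟨x, hx⟩ := h (true, M, c)
    exact hx (hM x).symm

end ESY.RAll
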